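import Pool.Agent.N356.SP.Defs4

/-! Project LS part 2 (helper356), KS4: the fourth power of the nonzero classes. -/

set_option autoImplicit false

namespace Pool.Agent.N368.LS

open Finset Pool.Agent.H384R3.SPk Pool.Agent.N356.SP

section Abs

variable {Γ R : Type*} [AddCommGroup Γ] [CommRing R] [Algebra ℝ R] {K : Cone Γ R}
  {L : R →ₗ[ℝ] ℝ} {C : Finset Γ} {θ : Γ → Γ → ℝ} {φ : Γ → R}

theorem sum_mem_P {ι : Type*} (s : Finset ι) (d : Γ) (f : ι → R) (h : ∀ i ∈ s, f i ∈ K.P d) :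
    ∑ i ∈ s, f i ∈ K.P d := by
  classical
  induction s using Finset.induction_on with
  | empty => simpa using K.zero d
  | insert i s hi ih =>
    rw [Finset.sum_insert hi]
    exact K.add d _ _ (h i (Finset.mem_insert_self i s))
      (ih fun j hj => h j (Finset.mem_insert_of_mem hj))

theorem uA_mem' (hφ : ∀ c, φ c ∈ K.P c) (d : Γ) : uA C φ d ∈ K.P d := by
  classical
  refine sum_mem_P _ _ _ fun s _ => sum_mem_P _ _ _ fun t _ => ?_
  split_ifs with h
  · rw [← h]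
    exact K.mul _ _ _ _ (hφ s) (hφ t)
  · exact K.zero d

theorem prod_mem {u : Γ → R} (hu : ∀ d, u d ∈ K.P d) (W : Multiset Γ) :
    (W.map u).prod ∈ K.P W.sum := by
  induction W using Multiset.induction_on with
  | empty => simpa using K.one
  | cons a W ih =>
    rw [Multiset.map_cons, Multiset.prod_cons, Multiset.sum_cons]
    exact K.mul _ _ _ _ (hu a) ih

theorem L_prod_nonneg (hL : IsFun K L) {u : Γ → R} (hu : ∀ d, u d ∈ K.P d) (W : Multiset Γ) :
    0 ≤ L (W.map u).prod := by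
  have h1 := prod_mem hu W
  by_cases h : W.sum = 0
  · rw [h] at h1
    exact hL.nn _ h1
  · exact (hL.z _ h _ h1).ge

/-- KS4: fourth power of the nonzero classes, from `comb2s` -/
theorem L_U4' (comb2s : ∀ {D : Finset Γ}, (∀ s ∈ D, -s ∈ D) → (∀ s ∈ D, s ≠ -s) →
      ∀ J : Multiset Γ → ℝ, (∀ U, 0 ≤ J U) →
      3 / 2 * (∑ x ∈ D, ∑ y ∈ D, J {x, -x, y, -y}) ≤
        ∑ a ∈ D, ∑ b ∈ D, ∑ c ∈ D, ∑ d ∈ D, J {a, b, c, d})
    (hL : IsFun K L) (h : GoodC C θ) (hφ : ∀ c, φ c ∈ K.P c) :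
    3 / 2 * L (vA C φ ^ 2) ≤ L (UA C φ ^ 4) := by
  classical
  set u : Γ → R := uA C φ with hu
  have hum : ∀ d, u d ∈ K.P d := uA_mem' hφ
  set D : Finset Γ := (DD C).erase 0 with hD
  have hmem : ∀ d, d ∈ D ↔ d ≠ 0 ∧ ∃ s ∈ C, ∃ t ∈ C, s + t = d := by
    intro d
    rw [hD, DD, Finset.mem_erase, Finset.mem_image]
    constructor
    · rintro ⟨h1, ⟨s, t⟩, h2, h3⟩
      rw [Finset.mem_product] at h2
      exact ⟨h1, s, h2.1, t, h2.2, h3⟩
    · rintro ⟨h1, s, hs, t, ht, h3⟩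
      exact ⟨h1, (s, t), Finset.mem_product.2 ⟨hs, ht⟩, h3⟩
  have hneg : ∀ s ∈ D, -s ∈ D := by
    intro d hd
    obtain ⟨h1, s, hs, t, ht, h2⟩ := (hmem d).1 hd
    refine (hmem _).2 ⟨neg_ne_zero.2 h1, -s, h.neg s hs, -t, h.neg t ht, ?_⟩
    rw [← h2]
    abel
  have hne : ∀ s ∈ D, s ≠ -s := by
    intro d hd hdd
    obtain ⟨h1, s, hs, t, ht, h2⟩ := (hmem d).1 hd
    rw [← h2] at hdd h1
    exact h1 (h.two s hs t ht hdd)
  have key := comb2s hneg hne (fun W => L (W.map u).prod) (L_prod_nonneg hL hum)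
  have e1 : ∑ x ∈ D, ∑ y ∈ D, L ((({x, -x, y, -y} : Multiset Γ).map u).prod) =
      L (vA C φ ^ 2) := by
    have h1 : vA C φ ^ 2 = ∑ x ∈ D, ∑ y ∈ D, (({x, -x, y, -y} : Multiset Γ).map u).prod := by
      have h2 : vA C φ = ∑ d ∈ D, u d * u (-d) := rfl
      rw [pow_two, h2, Finset.sum_mul_sum]
      refine Finset.sum_congr rfl fun x _ => Finset.sum_congr rfl fun y _ => ?_
      simp
      ring
    rw [h1]
    simp only [map_sum]
  have e2 : ∑ a ∈ D, ∑ b ∈ D, ∑ c ∈ D, ∑ d ∈ D, L ((({a, b, c, d} : Multiset Γ).map u).prod) =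
      L (UA C φ ^ 4) := by
    have h1 : UA C φ ^ 4 =
        ∑ a ∈ D, ∑ b ∈ D, ∑ c ∈ D, ∑ d ∈ D, (({a, b, c, d} : Multiset Γ).map u).prod := by
      have h2 : UA C φ = ∑ d ∈ D, u d := rfl
      have h3 : UA C φ ^ 4 = UA C φ * (UA C φ * (UA C φ * UA C φ)) := by ring
      rw [h3, h2]
      simp only [Finset.sum_mul, Finset.mul_sum]
      refine Finset.sum_congr rfl fun x _ => ?_
      refine Finset.sum_congr rfl fun y _ => ?_
      refine Finset.sum_congr rfl fun z _ => Finset.sum_congr rfl fun w _ => ?_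
      simp
      ring
    rw [h1]
    simp only [map_sum]
  rw [← e1, ← e2]
  exact key

end Abs

end Pool.Agent.N368.LS
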